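import Mathlib

set_option autoImplicit false

namespace Pool.Agent.Results.MP_55b43c_co.EdgeDeletion

/-! ### The Cheating Robot game -/

section Game

variable {V : Type}

/-- Every cop moves to a vertex of the closed neighbourhood of its current vertex. -/
def CopMove (G : SimpleGraph V) {k : ℕ} (c c' : Fin k → V) : Prop :=
  ∀ i, c' i = c i ∨ G.Adj (c i) (c' i)

/-- The robot moves to a vertex of its closed neighbourhood. -/
def RobotMove (G : SimpleGraph V) (r r' : V) : Prop := r' = r ∨ G.Adj r r'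

/-- The cops have moved from `c` to `c'` and then the robot from `r` to `r'`.  The robot is captured
if it is now on the vertex of a cop, or if it traversed an edge that some cop traversed. -/
def Captured {k : ℕ} (c c' : Fin k → V) (r r' : V) : Prop :=
  (∃ i, c' i = r') ∨ (r ≠ r' ∧ ∃ i, (c i = r ∧ c' i = r') ∨ (c i = r' ∧ c' i = r))

/-- With the cops at `c`, the robot at `r` and a new round to start, the cops can force the capture
of the robot (in finitely many rounds): they have a move `c'` such that every answer `r'` of the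
robot that does not get it captured at once leads to a position from which they can force capture. -/
inductive Caught (G : SimpleGraph V) {k : ℕ} : (Fin k → V) → V → Prop
  | round (c c' : Fin k → V) (r : V) (hc : CopMove G c c')
      (h : ∀ r', RobotMove G r r' → ¬ Captured c c' r r' → Caught G c' r') : Caught G c r

/-- `k` cops win: some initial placement beats every initial vertex of the robot. -/
def CopsWin (G : SimpleGraph V) (k : ℕ) : Prop := ∃ c : Fin k → V, ∀ r : V, Caught G c r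

/-- The cheating robot cop number. -/
noncomputable def ccr (G : SimpleGraph V) : ℕ := sInf {k | CopsWin G k}

lemma Caught.comp {G : SimpleGraph V} {k l : ℕ} (f : Fin l → Fin k) (hf : Function.Surjective f)
    {c : Fin k → V} {r : V} (h : Caught G c r) : Caught G (c ∘ f) r := by
  induction h with
  | round c c' r hc _ ih =>
    refine Caught.round _ (c' ∘ f) r (fun i => hc (f i)) fun r' hr' hcap => ih r' hr' ?_
    intro hcap'
    apply hcap
    rcases hcap' with ⟨i, hi⟩ | ⟨hne, i, hi⟩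
    · obtain ⟨j, rfl⟩ := hf i
      exact Or.inl ⟨j, hi⟩
    · obtain ⟨j, rfl⟩ := hf i
      exact Or.inr ⟨hne, j, hi⟩

lemma not_caught_zero {G : SimpleGraph V} {c : Fin 0 → V} {r : V} : ¬ Caught G c r := by
  intro h
  induction h with
  | round c c' r _ _ ih =>
    refine ih r (Or.inl rfl) ?_
    rintro (⟨i, _⟩ | ⟨_, i, _⟩) <;> exact i.elim0

lemma copsWin_two_of_le {G : SimpleGraph V} [Nonempty V] {k : ℕ} (hk : k ≤ 2)
    (h : CopsWin G k) : CopsWin G 2 := by
  obtain ⟨c, hc⟩ := h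
  interval_cases k
  · obtain ⟨v⟩ := ‹Nonempty V›
    exact absurd (hc v) not_caught_zero
  · exact ⟨c ∘ fun _ => 0, fun r => (hc r).comp (fun _ => 0)
      (fun i => ⟨0, Subsingleton.elim _ _⟩)⟩
  · exact ⟨c, hc⟩

/-- Seven cops occupying all vertices win. -/
lemma copsWin_seven (G : SimpleGraph (Fin 7)) : CopsWin G 7 :=
  ⟨id, fun r => Caught.round _ id r (fun _ => Or.inl rfl) fun r' _ hcap =>
    absurd (Or.inl ⟨r', rfl⟩) hcap⟩

end Game

/-! ### The two graphs -/

/-- Adjacency in `H`: triangles `012` and `345`, and the paths `0 3`, `1 4`, `2 6 5`. -/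
def adjH (a b : Fin 7) : Bool :=
  [(0, 1), (0, 2), (1, 2), (3, 4), (3, 5), (4, 5), (0, 3), (1, 4), (2, 6), (5, 6)].any
    fun e : Fin 7 × Fin 7 => (a == e.1 && b == e.2) || (a == e.2 && b == e.1)

/-- Adjacency in `G`: the edges of `H` and the edge `2 3`. -/
def adjG (a b : Fin 7) : Bool :=
  adjH a b || (a == 2 && b == 3) || (a == 3 && b == 2)

/-- The graph `H`. -/
def H : SimpleGraph (Fin 7) where
  Adj a b := adjH a b = true
  symm := ⟨by decide⟩
  loopless := ⟨by decide⟩

/-- The graph `G`. -/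
def G : SimpleGraph (Fin 7) where
  Adj a b := adjG a b = true
  symm := ⟨by decide⟩
  loopless := ⟨by decide⟩

lemma H_le_G : H ≤ G := by
  intro a b h
  show adjG a b = true
  have h' : adjH a b = true := h
  simp [adjG, h']

lemma conn_of {K : SimpleGraph (Fin 7)} (h : ∀ v : Fin 7, (v : ℕ) ≠ 0 → ∃ w : Fin 7, (w : ℕ) < v ∧
    K.Adj v w) : K.Connected := by
  have h0 : ∀ m : ℕ, ∀ v : Fin 7, (v : ℕ) = m → K.Reachable v 0 := by
    intro m
    induction m using Nat.strong_induction_on with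
    | _ m ih =>
      intro v hv
      by_cases hm : m = 0
      · have : v = 0 := Fin.ext (by rw [hv, hm]; rfl)
        rw [this]
      · obtain ⟨w, hw1, hw2⟩ := h v (by omega)
        exact hw2.reachable.trans (ih _ (by omega) _ rfl)
  exact ⟨fun u v => (h0 _ u rfl).trans (h0 _ v rfl).symm⟩

lemma H_conn : H.Connected := by
  have h : ∀ v : Fin 7, (v : ℕ) ≠ 0 → ∃ w : Fin 7, (w : ℕ) < v ∧ adjH v w = true := by decide
  exact conn_of h

lemma G_conn : G.Connected := by
  have h : ∀ v : Fin 7, (v : ℕ) ≠ 0 → ∃ w : Fin 7, (w : ℕ) < v ∧ adjG v w = true := by decide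
  exact conn_of h

/-! ### Two cops win on `G` -/

/-- Number of rounds needed, for cops at `a`, `b` and the robot at `r` (index `49 a + 7 b + r`). -/
def rankTab : List ℕ :=
  [6, 4, 5, 5, 4, 4, 4, 6, 4, 6, 5, 3, 3, 3, 5, 4, 5, 5, 4, 4, 4, 5, 4, 5, 5, 4, 3, 2, 6, 6,
   5, 6, 4, 2, 2, 6, 6, 5, 6, 4, 3, 1, 6, 4, 6, 5, 5, 5, 2, 6, 4, 6, 5, 3, 3, 3, 6, 5, 6, 6,
   6, 6, 3, 6, 4, 6, 5, 3, 3, 3, 5, 5, 5, 6, 3, 3, 2, 6, 6, 6, 6, 3, 3, 2, 6, 6, 6, 6, 3, 3,
   1, 6, 5, 6, 6, 6, 6, 2, 5, 4, 5, 5, 4, 4, 4, 6, 4, 6, 5, 3, 3, 3, 5, 4, 6, 5, 4, 4, 4, 5,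
   4, 5, 5, 4, 3, 1, 5, 6, 6, 6, 4, 2, 1, 5, 6, 6, 6, 4, 3, 1, 6, 5, 6, 6, 5, 5, 1, 5, 4, 5,
   5, 4, 3, 2, 5, 5, 5, 6, 3, 3, 2, 5, 4, 5, 5, 4, 3, 1, 5, 5, 5, 6, 5, 3, 2, 6, 6, 6, 6, 4,
   2, 2, 6, 6, 6, 6, 5, 3, 1, 5, 5, 6, 6, 5, 5, 2, 6, 6, 5, 6, 4, 2, 2, 6, 6, 6, 6, 3, 3, 2,
   5, 6, 6, 6, 4, 2, 1, 6, 6, 6, 6, 4, 2, 2, 6, 6, 6, 6, 4, 2, 6, 6, 6, 6, 6, 4, 2, 6, 6, 6,
   6, 6, 5, 5, 2, 6, 6, 5, 6, 4, 3, 1, 6, 6, 6, 6, 3, 3, 1, 5, 6, 6, 6, 4, 3, 1, 6, 6, 6, 6,
   5, 3, 1, 6, 6, 6, 6, 4, 2, 6, 6, 6, 6, 6, 6, 3, 6, 6, 6, 6, 6, 5, 5, 1, 6, 4, 6, 5, 5, 5,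
   2, 6, 5, 6, 6, 6, 6, 2, 6, 5, 6, 6, 5, 5, 1, 5, 5, 6, 6, 5, 5, 2, 6, 6, 6, 6, 5, 5, 2, 6,
   6, 6, 6, 5, 5, 1, 6, 6, 6, 6, 6, 6, 2]

/-- The move of the cops, coded as `7 a' + b'`. -/
def moveTab : List ℕ :=
  [0, 9, 17, 17, 10, 10, 9, 0, 9, 0, 23, 25, 25, 18, 21, 1, 17, 3, 10, 10, 9, 14, 9, 2, 23,
   10, 25, 19, 3, 3, 17, 3, 10, 26, 19, 3, 3, 17, 3, 10, 25, 20, 2, 9, 2, 23, 23, 23, 19, 0,
   15, 0, 17, 31, 31, 30, 0, 2, 0, 0, 0, 0, 18, 0, 1, 0, 3, 31, 31, 30, 14, 2, 2, 0, 31, 31,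
   19, 3, 3, 3, 3, 31, 31, 19, 3, 3, 3, 3, 31, 31, 20, 2, 2, 2, 2, 2, 2, 19, 3, 7, 23, 17, 10,
   10, 9, 0, 7, 0, 21, 25, 25, 18, 3, 1, 0, 3, 10, 10, 9, 0, 7, 2, 21, 10, 25, 47, 3, 3, 3, 3,
   10, 26, 47, 3, 3, 3, 3, 10, 25, 20, 2, 2, 2, 2, 23, 23, 47, 2, 15, 14, 17, 22, 31, 37, 2,
   2, 14, 0, 25, 25, 37, 0, 1, 14, 3, 22, 31, 41, 2, 2, 2, 0, 3, 25, 19, 3, 3, 3, 3, 22, 26,
   19, 3, 3, 3, 3, 3, 25, 20, 2, 2, 2, 2, 23, 23, 19, 10, 10, 23, 10, 10, 38, 37, 21, 21, 21,
   21, 25, 25, 37, 21, 10, 10, 10, 10, 38, 41, 10, 10, 10, 10, 10, 38, 37, 10, 10, 10, 10, 10,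
   26, 10, 10, 10, 10, 10, 10, 38, 10, 23, 23, 23, 23, 23, 23, 37, 21, 21, 23, 21, 22, 31, 44,
   21, 21, 21, 21, 25, 25, 44, 21, 21, 21, 21, 22, 31, 41, 21, 21, 21, 21, 21, 25, 44, 22, 22,
   22, 22, 22, 26, 22, 24, 24, 24, 24, 24, 25, 24, 23, 23, 23, 23, 23, 23, 44, 14, 15, 14, 17,
   17, 17, 37, 14, 14, 14, 14, 14, 14, 37, 14, 14, 14, 14, 17, 17, 41, 14, 14, 14, 14, 17, 17,
   19, 17, 17, 17, 17, 17, 17, 19, 17, 17, 17, 17, 17, 17, 20, 16, 16, 16, 16, 16, 16, 19]

def rk (a b r : Fin 7) : ℕ := rankTab.getD (49 * a + 7 * b + r) 0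

def mv (a b r : Fin 7) : ℕ := moveTab.getD (49 * a + 7 * b + r) 0

/-- first cop -/
def mvA (a b r : Fin 7) : Fin 7 := Fin.ofNat 7 (mv a b r / 7)

/-- second cop -/
def mvB (a b r : Fin 7) : Fin 7 := Fin.ofNat 7 (mv a b r % 7)

/-- capture, as a Boolean -/
def capB (a b a' b' r r' : Fin 7) : Bool :=
  a' == r' || b' == r' || (!(r == r') &&
    ((a == r && a' == r') || (a == r' && a' == r) || (b == r && b' == r') || (b == r' && b' == r)))

lemma checkG : ∀ a b r : Fin 7,
    ((mvA a b r == a || adjG a (mvA a b r)) && (mvB a b r == b || adjG b (mvB a b r)) &&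
      (List.finRange 7).all fun r' => !(r' == r || adjG r r') ||
        capB a b (mvA a b r) (mvB a b r) r r' ||
        decide (rk (mvA a b r) (mvB a b r) r' < rk a b r)) = true := by
  decide +kernel

lemma captured_iff (a b a' b' r r' : Fin 7) :
    Captured ![a, b] ![a', b'] r r' ↔ capB a b a' b' r r' = true := by
  simp only [Captured, Fin.exists_fin_two, Matrix.cons_val_zero, Matrix.cons_val_one, capB,
    Bool.or_eq_true, Bool.and_eq_true, beq_iff_eq, Bool.not_eq_true', beq_eq_false_iff_ne, ne_eq]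
  tauto

lemma orG {a b : Fin 7} (h : (b == a || adjG a b) = true) : b = a ∨ G.Adj a b := by
  simp only [Bool.or_eq_true, beq_iff_eq] at h
  exact h

lemma caughtG (n : ℕ) : ∀ a b r : Fin 7, rk a b r ≤ n → Caught G ![a, b] r := by
  induction n with
  | zero =>
    intro a b r h
    have hc := checkG a b r
    rw [Bool.and_eq_true, Bool.and_eq_true, List.all_eq_true] at hc
    refine Caught.round _ ![mvA a b r, mvB a b r] r ?_ ?_
    · intro i
      fin_cases i
      · exact orG hc.1.1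
      · exact orG hc.1.2
    · intro r' hr' hcap
      have h2 := hc.2 r' (List.mem_finRange r')
      rw [captured_iff] at hcap
      have h3 : (r' == r || adjG r r') = true := by
        rcases hr' with h | h
        · simp [h]
        · have : adjG r r' = true := h
          simp [this]
      rw [Bool.not_eq_true] at hcap
      rw [h3, hcap] at h2
      simp only [Bool.not_true, Bool.false_or, decide_eq_true_eq] at h2
      omega
  | succ n ih =>
    intro a b r h
    have hc := checkG a b r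
    rw [Bool.and_eq_true, Bool.and_eq_true, List.all_eq_true] at hc
    refine Caught.round _ ![mvA a b r, mvB a b r] r ?_ ?_
    · intro i
      fin_cases i
      · exact orG hc.1.1
      · exact orG hc.1.2
    · intro r' hr' hcap
      have h2 := hc.2 r' (List.mem_finRange r')
      rw [captured_iff] at hcap
      have h3 : (r' == r || adjG r r') = true := by
        rcases hr' with h | h
        · simp [h]
        · have : adjG r r' = true := h
          simp [this]
      rw [Bool.not_eq_true] at hcap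
      rw [h3, hcap] at h2
      simp only [Bool.not_true, Bool.false_or, decide_eq_true_eq] at h2
      exact ih _ _ _ (by omega)

lemma copsWin_G : CopsWin G 2 := ⟨![0, 0], fun r => caughtG _ 0 0 r le_rfl⟩

/-! ### The robot escapes two cops on `H` -/

/-- The safe positions: bit `49 a + 7 b + r`. -/
def safeMask : ℕ := 8853302576367602932601397306087719042846422820981592316505194238131933266319229248233559574733052100222

def safe (a b r : Fin 7) : Bool := safeMask.testBit (49 * a + 7 * b + r)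

lemma checkH : ∀ a b r : Fin 7,
    (!(safe a b r) || (List.finRange 7).all fun a' => !(a' == a || adjH a a') ||
      (List.finRange 7).all fun b' => !(b' == b || adjH b b') ||
      (List.finRange 7).any fun r' => (r' == r || adjH r r') && !(capB a b a' b' r r') &&
        safe a' b' r') = true := by
  decide +kernel

lemma startH : ∀ a b : Fin 7, ∃ r : Fin 7, (a ≠ r ∧ b ≠ r) ∧ safe a b r = true := by
  decide +kernel

lemma two_eq (c : Fin 2 → Fin 7) : c = ![c 0, c 1] := by
  funext i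
  fin_cases i <;> rfl

lemma not_caughtH {c : Fin 2 → Fin 7} {r : Fin 7} (h : Caught H c r) :
    safe (c 0) (c 1) r = false := by
  induction h with
  | round c c' r hc _ ih =>
    by_contra hne
    have hs : safe (c 0) (c 1) r = true := by simpa using hne
    have hch := checkH (c 0) (c 1) r
    rw [hs] at hch
    simp only [Bool.not_true, Bool.false_or, List.all_eq_true, Bool.or_eq_true] at hch
    have hA : (c' 0 == c 0 || adjH (c 0) (c' 0)) = true := by
      rcases hc 0 with h | h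
      · simp [h]
      · have : adjH (c 0) (c' 0) = true := h
        simp [this]
    have hB : (c' 1 == c 1 || adjH (c 1) (c' 1)) = true := by
      rcases hc 1 with h | h
      · simp [h]
      · have : adjH (c 1) (c' 1) = true := h
        simp [this]
    have h1 := hch (c' 0) (List.mem_finRange _)
    rw [hA] at h1
    simp only [Bool.not_true, Bool.false_eq_true, false_or] at h1
    have h2 := h1 (c' 1) (List.mem_finRange _)
    rw [hB] at h2
    simp only [Bool.not_true, Bool.false_eq_true, false_or, List.any_eq_true] at h2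
    obtain ⟨r', _, h3⟩ := h2
    simp only [Bool.and_eq_true, Bool.not_eq_true'] at h3
    obtain ⟨⟨h4, h5⟩, h6⟩ := h3
    have hmove : RobotMove H r r' := by
      simp only [Bool.or_eq_true, beq_iff_eq] at h4
      exact h4
    have hcap : ¬ Captured c c' r r' := by
      rw [two_eq c, two_eq c', captured_iff]
      simp [h5]
    have := ih r' hmove hcap
    rw [h6] at this
    exact absurd this (by simp)

lemma escapeH (c : Fin 2 → Fin 7) : ∃ r, (∀ i, c i ≠ r) ∧ ¬ Caught H c r := by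
  obtain ⟨r, ⟨h1, h2⟩, h3⟩ := startH (c 0) (c 1)
  refine ⟨r, ?_, fun h => ?_⟩
  · intro i
    fin_cases i
    · exact h1
    · exact h2
  · rw [not_caughtH h] at h3
    exact absurd h3 (by simp)

lemma not_copsWin_H : ¬ CopsWin H 2 := by
  rintro ⟨c, hc⟩
  obtain ⟨r, _, hr⟩ := escapeH c
  exact hr (hc r)

/-- **Main result.**  There are connected graphs `G` and `H` on 7 vertices with `H` a (spanning)
subgraph of `G` (obtained by deleting one edge) and `c_cr(G) ≤ 2 < 3 ≤ c_cr(H)`.  Moreover against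
two cops on `H` the robot even has an unoccupied starting vertex from which it is never captured. -/
theorem result :
    (∃ G H : SimpleGraph (Fin 7), G.Connected ∧ H.Connected ∧ H ≤ G ∧ ccr G ≤ 2 ∧ 3 ≤ ccr H ∧
      (∀ c : Fin 2 → Fin 7, ∃ r, (∀ i, c i ≠ r) ∧ ¬ Caught H c r)) ∧
    ¬ (∀ (V : Type) [Fintype V] (G H : SimpleGraph V), G.Connected → H.Connected → H ≤ G →
      ccr H ≤ ccr G) := by
  have hG : ccr G ≤ 2 := Nat.sInf_le copsWin_G
  have hH : 3 ≤ ccr H := by
    have hmem : CopsWin H (ccr H) := Nat.sInf_mem (s := {k | CopsWin H k}) ⟨7, copsWin_seven H⟩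
    by_contra hlt
    exact not_copsWin_H (copsWin_two_of_le (by omega) hmem)
  refine ⟨⟨G, H, G_conn, H_conn, H_le_G, hG, hH, escapeH⟩, fun h => ?_⟩
  have := h (Fin 7) G H G_conn H_conn H_le_G
  omega

end Pool.Agent.Results.MP_55b43c_co.EdgeDeletion
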